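import Pool.Agent.Lib_helper55.FZL.Main

/-!
# Littlewood's conjecture over `F((1/X))`: a zero-one law for quadratic irrationals

Definitions (all in `Pool.Agent.Lib_helper55.FZL`): `emb` is the embedding of the polynomials in `X`
into `F((1/X))` (`X` goes to the series with the single coefficient `1` at the index `-1`),
`size` is the absolute value, `prd θ Q` is `∏ |Q_m| * ‖∑ Q_m θ_m‖`, and `cc θ` is the infimum of
`prd θ Q` over all `Q` with all `Q_m ≠ 0`, the constant `c(θ_1, ..., θ_s)` of the problem.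
-/

set_option autoImplicit false

namespace Pool.Agent.Results.MP_c5f7d6_nt.FrobeniusZeroOne

open Polynomial Pool.Agent.FZL

theorem result (F : Type) [Field F] (p : ℕ) [Fact p.Prime] [CharP F p] :
    -- (1) the zero-one law for all `θ_m` with `U_m θ_m ^ q = A_m θ_m + B_m`, `q = p ^ t`
    (∀ (t s : ℕ) (θ : Fin s → LaurentSeries F) (U A B : Fin s → F[X]), 0 < t →
      (∀ m, U m ≠ 0) → (∀ m, A m ≠ 0) →
      (∀ m, emb (U m) * θ m ^ p ^ t = emb (A m) * θ m + emb (B m)) →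
      (cc θ = 0 ↔ ∃ Q : Fin s → F[X], (∀ m, Q m ≠ 0) ∧
        prd (fun m => emb (U m) * θ m) Q ^ (p ^ t - 1) *
          ∏ m, size (emb (U m ^ (p ^ t - 2) * A m)) < 1) ∧
      (cc (fun m => emb (U m) * θ m) ^ (p ^ t - 1) *
          ∏ m, size (emb (U m ^ (p ^ t - 2) * A m)) < 1 → cc θ = 0) ∧
      (cc θ = 0 → Saving θ)) ∧
    -- (2) for quadratic irrationals the bound is given by the discriminants
    (∀ (s : ℕ) (θ : Fin s → LaurentSeries F) (a b c : Fin s → F[X]), (∀ m, a m ≠ 0) →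
      (∀ m, b m ^ 2 - 4 * a m * c m ≠ 0) →
      (∀ m, emb (a m) * θ m ^ 2 + emb (b m) * θ m + emb (c m) = 0) →
      (cc θ = 0 ↔ ∃ Q : Fin s → F[X], (∀ m, Q m ≠ 0) ∧
        prd (fun m => emb (a m) * θ m) Q ^ 2 *
          ∏ m, size (emb (b m ^ 2 - 4 * a m * c m)) < 1) ∧
      (cc θ = 0 → Saving θ)) ∧
    -- (3) quadratic irrationals and radicals satisfy an equation as in (1)
    (∀ (t : ℕ) (θ : LaurentSeries F) (a b c : F[X]), a ≠ 0 → b ^ 2 - 4 * a * c ≠ 0 →
      emb a * θ ^ 2 + emb b * θ + emb c = 0 → Affine (p ^ t) θ) ∧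
    (∀ (t d : ℕ) (θ : LaurentSeries F) (a b : F[X]), d ∣ p ^ t - 1 → a ≠ 0 → b ≠ 0 →
      emb a * θ ^ d = emb b → Affine (p ^ t) θ) ∧
    -- (4) the zero case, explicit pairs: the same trace, constant norms
    (∀ (h : F[X]) (a b : F) (θ₁ θ₂ : LaurentSeries F), 0 < h.natDegree → a ≠ 0 → b ≠ 0 → a ≠ b →
      θ₁ ^ 2 = emb h * θ₁ + emb (C a) → θ₂ ^ 2 = emb h * θ₂ + emb (C b) →
      Indep ![θ₁, θ₂] ∧ Saving ![θ₁, θ₂]) := by
  refine ⟨fun t s θ U A B ht hU hA hθ => law_affine ht hU hA hθ,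
    fun s θ a b c ha hD hθ => law_quadratic (p := p) ha hθ hD,
    fun t θ a b c ha hD hθ => affine_quadratic ha hθ hD t,
    fun t d θ a b hd ha hb hθ => affine_radical hd ha hb hθ,
    fun h a b θ₁ θ₂ hh ha hb hab h1 h2 =>
      ⟨indep_same_trace hh ha hb hab h1 h2, same_trace (p := p) hh ha hb h1 h2⟩⟩

end Pool.Agent.Results.MP_c5f7d6_nt.FrobeniusZeroOne
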