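import Pool.Agent.Lib_helper55.FZL.Main

/-!
# Littlewood's conjecture over `F((1/X))`: quadratic partners are dense

Every tuple of quadratic irrationals (more generally, of solutions of `U θ ^ q = A θ + B`) which is
independent over the polynomials has, in every ball, a quadratic irrational partner such that the
longer tuple is independent and satisfies Littlewood's conjecture with a power saving.

Definitions (all in `Pool.Agent.Lib_helper55.FZL`): `emb` is the embedding of the polynomials in `X`
into `F((1/X))` (`X` goes to the series with the single coefficient `1` at the index `-1`),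
`size` is the absolute value, `prd θ Q` is `∏ |Q_m| * ‖∑ Q_m θ_m‖`.
-/

set_option autoImplicit false

namespace Pool.Agent.Results.MP_c5f7d6_nt.QuadraticPartners

open Polynomial Pool.Agent.FZL

theorem result (F : Type) [Field F] (p : ℕ) [Fact p.Prime] [CharP F p] :
    (∀ (t s : ℕ) (θ : Fin (s + 1) → LaurentSeries F), 0 < t → (∀ m, Affine (p ^ t) (θ m)) →
      Indep θ → ∀ (z : LaurentSeries F) (n : ℕ), ∃ (h f : F[X]) (y : LaurentSeries F),
        y ^ 2 = emb h * y + emb f ∧ h ^ 2 + 4 * f ≠ 0 ∧ (∀ i : ℤ, i < n → (y - z).coeff i = 0) ∧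
        Indep (Fin.cons y θ : Fin (s + 2) → LaurentSeries F) ∧
        Saving (Fin.cons y θ : Fin (s + 2) → LaurentSeries F)) ∧
    -- quadratic irrationals are in the class of the hypothesis
    (∀ (t : ℕ) (θ : LaurentSeries F) (a b c : F[X]), a ≠ 0 → b ^ 2 - 4 * a * c ≠ 0 →
      emb a * θ ^ 2 + emb b * θ + emb c = 0 → Affine (p ^ t) θ) ∧
    -- so there are such tuples of every length
    (∀ s : ℕ, ∃ (θ : Fin (s + 2) → LaurentSeries F) (h f : Fin (s + 2) → F[X]),
      (∀ m, θ m ^ 2 = emb (h m) * θ m + emb (f m)) ∧ (∀ m, h m ^ 2 + 4 * f m ≠ 0) ∧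
      Indep θ ∧ Saving θ) := by
  refine ⟨fun t s θ ht hθ hI z n => partner_affine ht hθ hI z n,
    fun t θ a b c ha hD hθ => affine_quadratic ha hθ hD t, fun s => ?_⟩
  obtain ⟨θ, h, f, h1, h2, h3, h4⟩ := tuples F p (s + 1)
  exact ⟨θ, h, f, h1, h2, h3, h4 (Nat.succ_pos s)⟩

end Pool.Agent.Results.MP_c5f7d6_nt.QuadraticPartners
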